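import Mathlib

set_option autoImplicit false

namespace Pool.Agent.H.MP_341645_pr

open MeasureTheory ProbabilityTheory Filter Topology
open scoped ENNReal

variable {q : ℕ}

def Cy : ℤ → List (Fin q) → Set (ℤ → Fin q)
  | _, [] => Set.univ
  | a, c :: w => {x | x a = c} ∩ Cy (a + 1) w

lemma Cy_append (a : ℤ) (u w : List (Fin q)) : Cy a (u ++ w) = Cy a u ∩ Cy (a + u.length) w := by
  induction u generalizing a with
  | nil => simp [Cy]
  | cons c u ih =>
    simp only [List.cons_append, Cy, ih, List.length_cons, Set.inter_assoc]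
    push_cast
    rw [show a + 1 + u.length = a + (u.length + 1) by ring]

lemma Cy_clopen (a : ℤ) (w : List (Fin q)) : IsClopen (Cy a w) := by
  induction w generalizing a with
  | nil => exact isClopen_univ
  | cons c w ih =>
    exact IsClopen.inter ((isClopen_discrete {c}).preimage (continuous_apply a)) (ih _)

lemma Cy_meas (a : ℤ) (w : List (Fin q)) : MeasurableSet (Cy a w) := (Cy_clopen a w).isOpen.measurableSet

lemma Cy_iff {a : ℤ} {w : List (Fin q)} {x : ℤ → Fin q} (hx : x ∈ Cy a w) (y : ℤ → Fin q) :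
    y ∈ Cy a w ↔ ∀ i, a ≤ i → i < a + w.length → y i = x i := by
  induction w generalizing a with
  | nil => simp only [Cy, Set.mem_univ, List.length_nil, true_iff]; intro i h1 h2; omega
  | cons c w ih =>
    obtain ⟨h1, h2⟩ := hx
    simp only [Cy, Set.mem_inter_iff, Set.mem_setOf_eq, ih h2, List.length_cons] at *
    constructor
    · rintro ⟨e, h⟩ i i1 i2
      rcases i1.eq_or_lt with rfl | i3
      · rw [e, h1]
      · exact h i (by omega) (by push_cast at i2; omega)
    · intro h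
      exact ⟨by rw [h a le_rfl (by push_cast; omega), h1], fun i i1 i2 => h i (by omega) (by push_cast; omega)⟩

lemma Cy_ne [NeZero q] (a : ℤ) (w : List (Fin q)) : ∃ x, x ∈ Cy a w := by
  induction w generalizing a with
  | nil => exact ⟨0, trivial⟩
  | cons c w ih =>
    obtain ⟨x, hx⟩ := ih (a + 1)
    refine ⟨Function.update x a c, by simp, (Cy_iff hx _).2 fun i i1 _ => ?_⟩
    rw [Function.update_of_ne (by omega)]

lemma Cy_ex (x : ℤ → Fin q) (a : ℤ) (n : ℕ) : ∃ w : List (Fin q), w.length = n ∧ x ∈ Cy a w := by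
  induction n generalizing a with
  | zero => exact ⟨[], rfl, trivial⟩
  | succ n ih =>
    obtain ⟨w, h1, h2⟩ := ih (a + 1)
    exact ⟨x a :: w, by simp [h1], rfl, h2⟩

lemma Cy_uniq {a : ℤ} {v w : List (Fin q)} {x : ℤ → Fin q} (h1 : x ∈ Cy a v) (h2 : x ∈ Cy a w)
    (h : v.length = w.length) : v = w := by
  induction v generalizing a w with
  | nil => exact (List.length_eq_zero_iff.1 h.symm).symm
  | cons c v ih =>
    rcases w with _ | ⟨d, w⟩
    · simp at h
    · have e1 : x a = c := h1.1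
      have e2 : x a = d := h2.1
      rw [ih h1.2 h2.2 (by simpa using h), ← e1, e2]

noncomputable def sw {M : Type} [AddCommMonoid M] : ℕ → (List (Fin q) → M) → M
  | 0, f => f []
  | n+1, f => ∑ c, sw n (fun w => f (c :: w))

lemma sw_congr {M : Type} [AddCommMonoid M] {n : ℕ} {f g : List (Fin q) → M}
    (h : ∀ w, w.length = n → f w = g w) : sw n f = sw n g := by
  induction n generalizing f g with
  | zero => exact h [] rfl
  | succ n ih => exact Finset.sum_congr rfl fun c _ => ih fun w hw => h _ (by simp [hw])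

lemma sw_add {M : Type} [AddCommMonoid M] (k m : ℕ) (f : List (Fin q) → M) :
    sw (m + k) f = sw k (fun u => sw m (fun w => f (u ++ w))) := by
  induction k generalizing f with
  | zero => rfl
  | succ k ih => exact Finset.sum_congr rfl fun c _ => ih _

lemma sw_zero {M : Type} [AddCommMonoid M] (n : ℕ) : sw n (fun _ : List (Fin q) => (0 : M)) = 0 := by
  induction n with
  | zero => rfl
  | succ n ih => simp [sw, ih]

lemma sw_single {M : Type} [AddCommMonoid M] (v : List (Fin q)) (f : List (Fin q) → M) :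
    sw v.length (fun w => if v = w then f w else 0) = f v := by
  induction v generalizing f with
  | nil => simp [sw]
  | cons c v ih =>
    simp only [List.length_cons, sw, List.cons.injEq]
    rw [Finset.sum_eq_single c]
    · simpa using ih (fun w => f (c :: w))
    · intro d _ hd; simp [hd.symm, sw_zero]
    · simp

lemma sw_apply (n : ℕ) (f : List (Fin q) → Measure (ℤ → Fin q)) (S : Set (ℤ → Fin q)) :
    sw n f S = sw n (fun w => f w S) := by
  induction n generalizing f with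
  | zero => rfl
  | succ n ih => simp [sw, ih]

lemma sw_right {W : List (Fin q) → ℝ≥0∞} (hR : ∀ w, ∑ c, W (w ++ [c]) = W w) (n : ℕ) (u : List (Fin q)) :
    sw n (fun t => W (u ++ t)) = W u := by
  induction n generalizing u with
  | zero => simp [sw]
  | succ n ih =>
    rw [sw, ← hR u]
    refine Finset.sum_congr rfl fun c _ => ?_
    rw [← ih]; simp

lemma sw_sum {M : Type} [AddCommMonoid M] (n : ℕ) (f : Fin q → List (Fin q) → M) :
    sw n (fun w => ∑ c, f c w) = ∑ c, sw n (f c) := by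
  induction n generalizing f with
  | zero => rfl
  | succ n ih =>
    simp only [sw]
    rw [Finset.sum_comm]
    exact Finset.sum_congr rfl fun d _ => ih _

lemma sw_left {W : List (Fin q) → ℝ≥0∞} (hL : ∀ w, ∑ c, W (c :: w) = W w) (n : ℕ) (v : List (Fin q)) :
    sw n (fun u => W (u ++ v)) = W v := by
  induction n with
  | zero => simp [sw]
  | succ n ih =>
    rw [sw, ← sw_sum, ← ih]
    exact sw_congr fun u _ => hL _

noncomputable def mu [NeZero q] (W : List (Fin q) → ℝ≥0∞) (a : ℤ) (N : ℕ) : Measure (ℤ → Fin q) :=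
  sw N (fun w => W w • Measure.dirac (Cy_ne a w).choose)

lemma mu_Cy [NeZero q] {W : List (Fin q) → ℝ≥0∞} (hL : ∀ w, ∑ c, W (c :: w) = W w)
    (hR : ∀ w, ∑ c, W (w ++ [c]) = W w) (a : ℤ) (k l : ℕ) (v : List (Fin q)) :
    mu W a (l + v.length + k) (Cy (a + k) v) = W v := by
  rw [mu, sw_apply, sw_add, ← sw_left hL k v]
  refine sw_congr fun u hu => ?_
  rw [sw_add, ← sw_single v (fun v' => W (u ++ v'))]
  refine sw_congr fun v' hv => ?_
  have key : ∀ t, (Cy_ne a (u ++ (v' ++ t))).choose ∈ Cy (a + k) v' := fun t => by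
    have := (Cy_ne a (u ++ (v' ++ t))).choose_spec
    generalize (Cy_ne a (u ++ (v' ++ t))).choose = x at this
    rw [Cy_append, Cy_append, hu] at this
    exact this.2.1
  split_ifs with h
  · subst h
    rw [← sw_right hR l (u ++ v)]
    refine sw_congr fun t _ => ?_
    rw [Measure.smul_apply, Measure.dirac_apply_of_mem (key t)]; simp
  · rw [← sw_zero (q := q) l]
    refine sw_congr fun t _ => ?_
    rw [Measure.smul_apply, Measure.dirac_apply' _ (Cy_meas _ _),
      Set.indicator_of_notMem (fun hh => h (Cy_uniq hh (key t) hv.symm))]; simp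

lemma exists_mu [NeZero q] {W : List (Fin q) → ℝ≥0∞} (h0 : W [] = 1) (hL : ∀ w, ∑ c, W (c :: w) = W w)
    (hR : ∀ w, ∑ c, W (w ++ [c]) = W w) : ∃ μ : Measure (ℤ → Fin q), IsProbabilityMeasure μ ∧
    ∀ a w, μ (Cy a w) = W w := by
  have hp : ∀ n : ℕ, IsProbabilityMeasure (mu W (-n) (2*n)) := fun n => ⟨by
    have := mu_Cy hL hR (-n) 0 (2*n) []
    simpa [Cy, h0] using this⟩
  let μs : ℕ → ProbabilityMeasure (ℤ → Fin q) := fun n => ⟨mu W (-n) (2*n), hp n⟩
  obtain ⟨μ, -, hμ⟩ := isCompact_univ.ultrafilter_le_nhds ((hyperfilter ℕ).map μs) (by simp)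
  refine ⟨μ, inferInstance, fun a w => ?_⟩
  have h1 := ProbabilityMeasure.tendsto_measure_of_null_frontier_of_tendsto'
    (L := (hyperfilter ℕ : Filter ℕ)) (μs := μs) hμ (E := Cy a w) (by simp [Cy_clopen a w])
  refine tendsto_nhds_unique h1 (tendsto_const_nhds.congr' ?_)
  have hle : (hyperfilter ℕ : Filter ℕ) ≤ atTop := Nat.hyperfilter_le_atTop
  filter_upwards [hle (eventually_ge_atTop (a.natAbs + w.length))] with n hn
  have hn' : a.natAbs + w.length ≤ n := hn
  have := mu_Cy hL hR (-n) (a + n).toNat (n - a - w.length).toNat w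
  rw [show (n - a - w.length).toNat + w.length + (a + n).toNat = 2 * n by omega,
    show -(n:ℤ) + ((a + n).toNat : ℕ) = a by omega] at this
  exact this.symm

lemma meas_sw (μ : Measure (ℤ → Fin q)) (n : ℕ) (a : ℤ) (S : Set (ℤ → Fin q)) (hS : MeasurableSet S) :
    μ S = sw n (fun w => μ (S ∩ Cy a w)) := by
  induction n generalizing a S with
  | zero => simp [sw, Cy]
  | succ n ih =>
    have hm : ∀ c : Fin q, MeasurableSet (S ∩ {x | x a = c}) := fun c =>
      hS.inter (show MeasurableSet ((fun x : ℤ → Fin q => x a) ⁻¹' {c}) from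
        measurable_pi_apply a (measurableSet_singleton c))
    have e : S = ⋃ c, S ∩ {x | x a = c} := by ext; simp
    conv_lhs => rw [e]
    rw [measure_iUnion _ hm, tsum_fintype, sw]
    · refine Finset.sum_congr rfl fun c _ => ?_
      rw [ih (a + 1) _ (hm c)]
      simp only [Cy, Set.inter_assoc]
    · intro c d hcd
      exact Set.disjoint_left.2 fun x h1 h2 => hcd (h1.2.symm.trans h2.2)

def PS (q : ℕ) (V : ℤ → ℕ → Prop) : Set (Set (ℤ → Fin q)) := {S | ∃ a w, V a w.length ∧ S = Cy a w}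

lemma PS_pi (V : ℤ → ℕ → Prop)
    (hV : ∀ a n b m, V a n → V b m → (a ≤ b ∧ b + m ≤ a + n) ∨ (b ≤ a ∧ a + n ≤ b + m)) :
    IsPiSystem (PS q V) := by
  rintro _ ⟨a, u, hu, rfl⟩ _ ⟨b, w, hw, rfl⟩ ⟨x, h1, h2⟩
  rcases hV _ _ _ _ hu hw with h | h
  · refine ⟨a, u, hu, Set.inter_eq_left.2 fun y hy => (Cy_iff h2 y).2 fun i i1 i2 => ?_⟩
    exact (Cy_iff h1 y).1 hy i (by omega) (by omega)
  · refine ⟨b, w, hw, Set.inter_eq_right.2 fun y hy => (Cy_iff h1 y).2 fun i i1 i2 => ?_⟩
    exact (Cy_iff h2 y).1 hy i (by omega) (by omega)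

lemma PS_m (V : ℤ → ℕ → Prop) : ∀ S ∈ PS q V, MeasurableSet S := by
  rintro _ ⟨a, w, -, rfl⟩; exact Cy_meas a w

lemma PS_meas (V : ℤ → ℕ → Prop) (i : ℤ) (h : ∃ a n, V a n ∧ a ≤ i ∧ i < a + n) :
    Measurable[MeasurableSpace.generateFrom (PS q V)] (fun x : ℤ → Fin q => x i) := by
  obtain ⟨a, n, hV, h1, h2⟩ := h
  letI := MeasurableSpace.generateFrom (PS q V)
  refine measurable_to_countable' fun c => ?_
  have : (fun x : ℤ → Fin q => x i) ⁻¹' {c}
      = ⋃ (w : List (Fin q)) (_ : w.length = n ∧ Cy a w ⊆ (fun x : ℤ → Fin q => x i) ⁻¹' {c}), Cy a w := by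
    ext x
    simp only [Set.mem_iUnion]
    constructor
    · intro hx
      obtain ⟨w, e, hw⟩ := Cy_ex x a n
      exact ⟨w, ⟨e, fun y hy => ((Cy_iff hw y).1 hy i h1 (by omega)).trans hx⟩, hw⟩
    · rintro ⟨w, h3, h4⟩; exact h3.2 h4
  rw [this]
  exact MeasurableSet.iUnion fun w => MeasurableSet.iUnion fun hw =>
    MeasurableSpace.measurableSet_generateFrom ⟨a, w, hw.1 ▸ hV, rfl⟩

def Ev (F : Finset ℤ) (c : ℤ → Fin q) : Set (ℤ → Fin q) := {x | ∀ i ∈ F, x i = c i}

lemma Ev_union (F G : Finset ℤ) (c : ℤ → Fin q) : Ev (F ∪ G) c = Ev F c ∩ Ev G c := by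
  ext x; simp [Ev, or_imp, forall_and]

lemma Ev_meas {m : MeasurableSpace (ℤ → Fin q)} (F : Finset ℤ) (c : ℤ → Fin q)
    (h : ∀ i ∈ F, Measurable[m] (fun x : ℤ → Fin q => x i)) : MeasurableSet[m] (Ev F c) := by
  have : Ev F c = ⋂ i ∈ F, (fun x : ℤ → Fin q => x i) ⁻¹' {c i} := by ext; simp [Ev]
  rw [this]
  exact Finset.measurableSet_biInter F fun i hi => h i hi (measurableSet_singleton _)

lemma split {W : List (Fin q) → ℝ≥0∞} {k : ℕ} {μ : Measure (ℤ → Fin q)} [IsProbabilityMeasure μ]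
    (hμ : ∀ a w, μ (Cy a w) = W w) (hI : ∀ x y, sw k (fun w => W (x ++ (w ++ y))) = W x * W y)
    (j : ℤ) (F G : Finset ℤ) (c : ℤ → Fin q) (hF : ∀ i ∈ F, i < j) (hG : ∀ i ∈ G, j + k ≤ i) :
    μ (Ev (F ∪ G) c) = μ (Ev F c) * μ (Ev G c) := by
  have hI : Indep (MeasurableSpace.generateFrom (PS q fun a n => a + n = j))
      (MeasurableSpace.generateFrom (PS q fun a _ => a = j + k)) μ := by
    refine IndepSets.indep' (PS_m _) (PS_m _) (PS_pi _ fun a n b m h1 h2 => by omega)
      (PS_pi _ fun a n b m h1 h2 => by omega) ?_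
    rw [IndepSets_iff]
    rintro _ _ ⟨a, u, hu, rfl⟩ ⟨b, v, hv, rfl⟩
    rw [meas_sw μ k j _ ((Cy_meas _ _).inter (Cy_meas _ _)), hμ, hμ, ← hI]
    refine sw_congr fun w hw => ?_
    rw [← hμ a, Cy_append, Cy_append, hu, hw, hv, Set.inter_assoc, Set.inter_comm (Cy j w)]
  rw [Ev_union]
  refine (Indep_iff _ _ _).1 hI _ _ (Ev_meas _ _ fun i hi => PS_meas _ _ ⟨i, (j - i).toNat, ?_⟩)
    (Ev_meas _ _ fun i hi => PS_meas _ _ ⟨j + k, (i - j - k + 1).toNat, ?_⟩)
  · have := hF i hi; omega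
  · have := hG i hi; omega

lemma inter {W : List (Fin q) → ℝ≥0∞} {k : ℕ} {μ : Measure (ℤ → Fin q)} [IsProbabilityMeasure μ]
    (hμ : ∀ a w, μ (Cy a w) = W w) (hI : ∀ x y, sw k (fun w => W (x ++ (w ++ y))) = W x * W y)
    (c : ℤ → Fin q) (n : ℕ) : ∀ F G : Finset ℤ, F.card + G.card ≤ n →
    (∀ a ∈ F, ∀ b ∈ G, (k : ℤ) < |a - b|) → μ (Ev (F ∪ G) c) = μ (Ev F c) * μ (Ev G c) := by
  induction n with
  | zero =>
    intro F G h _
    have : G = ∅ := Finset.card_eq_zero.1 (by omega)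
    simp [this, Ev]
  | succ n ih =>
    have key : ∀ F G : Finset ℤ, F.card + G.card ≤ n + 1 → (∀ a ∈ F, ∀ b ∈ G, (k : ℤ) < |a - b|) →
        ∀ j ∈ G, (∀ i ∈ G, i ≤ j) → ∀ m ∈ F, j < m → μ (Ev (F ∪ G) c) = μ (Ev F c) * μ (Ev G c) := by
      intro F G h hd j hj hm m mF hjm
      have hc : (F.filter (· ≤ j)).card < F.card :=
        Finset.card_lt_card (Finset.filter_ssubset.2 ⟨m, mF, by omega⟩)
      have h2 : ∀ i ∈ F.filter (fun i => ¬ i ≤ j), j + 1 + k ≤ i := fun i hi => by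
        obtain ⟨i1, i2⟩ := Finset.mem_filter.1 hi
        have := hd i i1 j hj
        rw [abs_of_nonneg (by omega)] at this; omega
      have e1 := split hμ hI (j + 1) (F.filter (· ≤ j)) _ c
        (fun i hi => by have := (Finset.mem_filter.1 hi).2; omega) h2
      have e2 := split hμ hI (j + 1) (F.filter (· ≤ j) ∪ G) _ c (fun i hi => by
        rcases Finset.mem_union.1 hi with hi | hi
        · have := (Finset.mem_filter.1 hi).2; omega
        · have := hm i hi; omega) h2
      rw [Finset.filter_union_filter_not_eq] at e1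
      rw [Finset.union_right_comm, Finset.filter_union_filter_not_eq] at e2
      rw [e2, e1, ih _ G (by omega) (fun a ha => hd a (Finset.mem_filter.1 ha).1), mul_right_comm]
    intro F G h hd
    rcases G.eq_empty_or_nonempty with rfl | hG
    · simp [Ev]
    rcases F.eq_empty_or_nonempty with rfl | hF
    · simp [Ev]
    rcases lt_trichotomy (G.max' hG) (F.max' hF) with h1 | h1 | h1
    · exact key F G h hd _ (G.max'_mem hG) G.le_max' _ (F.max'_mem hF) h1
    · have := hd _ (F.max'_mem hF) _ (G.max'_mem hG)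
      rw [h1] at this; simp at this; omega
    · rw [Finset.union_comm, mul_comm]
      exact key G F (by omega) (fun a ha b hb => by rw [abs_sub_comm]; exact hd b hb a ha)
        _ (F.max'_mem hF) F.le_max' _ (G.max'_mem hG) h1

def PA (q : ℕ) (A : Set ℤ) : Set (Set (ℤ → Fin q)) :=
  {S | ∃ (F : Finset ℤ) (c : ℤ → Fin q), (∀ i ∈ F, i ∈ A) ∧ S = Ev F c}

lemma Ev_congr {F : Finset ℤ} {c d : ℤ → Fin q} (h : ∀ i ∈ F, c i = d i) : Ev F c = Ev F d := by
  ext x; exact forall₂_congr fun i hi => by rw [h i hi]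

lemma PA_pi (A : Set ℤ) : IsPiSystem (PA q A) := by
  rintro _ ⟨F, c, hF, rfl⟩ _ ⟨G, d, hG, rfl⟩ ⟨x, h1, h2⟩
  refine ⟨F ∪ G, x, fun i hi => ?_, by rw [Ev_union, Ev_congr h1, Ev_congr h2]⟩
  rcases Finset.mem_union.1 hi with h | h
  exacts [hF i h, hG i h]

lemma shift_Cy (a : ℤ) (w : List (Fin q)) :
    (fun (x : ℤ → Fin q) (n : ℤ) => x (n + 1)) ⁻¹' Cy a w = Cy (a + 1) w := by
  induction w generalizing a with
  | nil => rfl
  | cons c w ih => rw [Cy, Set.preimage_inter, ih]; rfl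

theorem exists_col [NeZero q] (k : ℕ) {W : List (Fin q) → ℝ≥0∞} (h0 : W [] = 1)
    (hL : ∀ w, ∑ c, W (c :: w) = W w) (hR : ∀ w, ∑ c, W (w ++ [c]) = W w) (hP : ∀ c, W [c, c] = 0)
    (hI : ∀ x y, sw k (fun w => W (x ++ (w ++ y))) = W x * W y) :
    ∃ μ : Measure (ℤ → Fin q), IsProbabilityMeasure μ ∧
      μ.map (fun (x : ℤ → Fin q) (n : ℤ) => x (n + 1)) = μ ∧
      (∀ᵐ x ∂μ, ∀ n : ℤ, x n ≠ x (n + 1)) ∧
      (∀ A B : Set ℤ, (∀ a ∈ A, ∀ b ∈ B, (k : ℤ) < |a - b|) →
        IndepFun (fun (x : ℤ → Fin q) (a : A) => x a) (fun (x : ℤ → Fin q) (b : B) => x b) μ) ∧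
      ∀ a w, μ (Cy a w) = W w := by
  obtain ⟨μ, hp, hμ⟩ := exists_mu h0 hL hR
  have sm : Measurable (fun (x : ℤ → Fin q) (n : ℤ) => x (n + 1)) := by fun_prop
  refine ⟨μ, hp, ?_, ?_, ?_, hμ⟩
  · haveI := Measure.isProbabilityMeasure_map (μ := μ) sm.aemeasurable
    refine ext_of_generate_finite (PS q fun a n => 2 * a + n = 0) ?_
      (PS_pi _ fun a n b m h1 h2 => by omega) ?_ (by simp)
    · apply le_antisymm
      · have : @Measurable _ _ (MeasurableSpace.generateFrom (PS q fun a n => 2 * a + n = 0))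
            MeasurableSpace.pi (fun (x : ℤ → Fin q) (i : ℤ) => x i) :=
          @measurable_pi_lambda _ _ _ (MeasurableSpace.generateFrom _) _ _
            fun i => PS_meas _ i ⟨-(i.natAbs + 1), 2 * (i.natAbs + 1), by omega⟩
        exact fun s hs => this hs
      · exact MeasurableSpace.generateFrom_le (PS_m _)
    · rintro _ ⟨a, w, -, rfl⟩
      rw [Measure.map_apply sm (Cy_meas _ _), shift_Cy, hμ, hμ]
  · rw [ae_all_iff]
    intro i
    rw [ae_iff]
    have : {x : ℤ → Fin q | ¬ x i ≠ x (i+1)} = ⋃ c, Cy i [c, c] := by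
      ext x; simp [Cy, eq_comm]
    rw [this]
    exact measure_iUnion_null fun c => by rw [hμ, hP]
  · intro A B hAB
    have hm : ∀ A, ∀ s ∈ PA q A, MeasurableSet s := by
      rintro A _ ⟨F, c, -, rfl⟩; exact Ev_meas F c fun i _ => measurable_pi_apply i
    have hI : Indep (MeasurableSpace.generateFrom (PA q A)) (MeasurableSpace.generateFrom (PA q B)) μ := by
      refine IndepSets.indep' (hm A) (hm B) (PA_pi A) (PA_pi B) ?_
      rw [IndepSets_iff]
      rintro _ _ ⟨F, c, hF, rfl⟩ ⟨G, d, hG, rfl⟩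
      have hd : ∀ a ∈ F, ∀ b ∈ G, (k : ℤ) < |a - b| := fun a ha b hb => hAB a (hF a ha) b (hG b hb)
      rw [Ev_congr (c := c) (d := F.piecewise c d) (fun i hi => by simp [hi]),
        Ev_congr (c := d) (d := F.piecewise c d) (fun i hi => by
          have : i ∉ F := fun h => by have := hd i h i hi; simp at this; omega
          simp [this]), ← Ev_union]
      exact inter hμ hI _ _ F G le_rfl hd
    have hc : ∀ A : Set ℤ, MeasurableSpace.comap (fun (x : ℤ → Fin q) (a : A) => x a) MeasurableSpace.pi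
        ≤ MeasurableSpace.generateFrom (PA q A) := fun A =>
      Measurable.comap_le (@measurable_pi_lambda _ _ _ (MeasurableSpace.generateFrom (PA q A)) _ _
        fun i => @measurable_to_countable' _ _ _ _ (MeasurableSpace.generateFrom (PA q A)) _ fun c =>
          MeasurableSpace.measurableSet_generateFrom ⟨{i.1}, fun _ => c, by simp, by ext; simp [Ev]⟩)
    rw [IndepFun_iff_Indep]
    exact indep_of_indep_of_le hI (hc A) (hc B)

lemma sw_ofReal (n : ℕ) (f : List (Fin q) → ℝ) (hf : ∀ w, 0 ≤ f w) :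
    0 ≤ sw n f ∧ ENNReal.ofReal (sw n f) = sw n (fun w => ENNReal.ofReal (f w)) := by
  induction n generalizing f with
  | zero => exact ⟨hf _, rfl⟩
  | succ n ih =>
    have h := fun c => ih (fun w => f (c :: w)) (fun w => hf _)
    refine ⟨Finset.sum_nonneg fun c _ => (h c).1, ?_⟩
    rw [sw, ENNReal.ofReal_sum_of_nonneg fun c _ => (h c).1]
    exact Finset.sum_congr rfl fun c _ => (h c).2

theorem exists_col_real [NeZero q] (k : ℕ) {W : List (Fin q) → ℝ} (hn : ∀ w, 0 ≤ W w) (h0 : W [] = 1)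
    (hL : ∀ w, ∑ c, W (c :: w) = W w) (hR : ∀ w, ∑ c, W (w ++ [c]) = W w) (hP : ∀ c, W [c, c] = 0)
    (hI : ∀ x y, sw k (fun w => W (x ++ (w ++ y))) = W x * W y) :
    ∃ μ : Measure (ℤ → Fin q), IsProbabilityMeasure μ ∧
      μ.map (fun (x : ℤ → Fin q) (n : ℤ) => x (n + 1)) = μ ∧
      (∀ᵐ x ∂μ, ∀ n : ℤ, x n ≠ x (n + 1)) ∧
      (∀ A B : Set ℤ, (∀ a ∈ A, ∀ b ∈ B, (k : ℤ) < |a - b|) →
        IndepFun (fun (x : ℤ → Fin q) (a : A) => x a) (fun (x : ℤ → Fin q) (b : B) => x b) μ) ∧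
      ∀ a w, μ (Cy a w) = ENNReal.ofReal (W w) := by
  refine exists_col k (W := fun w => ENNReal.ofReal (W w)) (by simp [h0]) (fun w => ?_) (fun w => ?_)
    (fun c => by simp [hP]) (fun x y => ?_)
  · rw [← hL w, ENNReal.ofReal_sum_of_nonneg fun c _ => hn _]
  · rw [← hR w, ENNReal.ofReal_sum_of_nonneg fun c _ => hn _]
  · rw [← ENNReal.ofReal_mul (hn _), ← hI, (sw_ofReal k _ fun w => hn _).2]

end Pool.Agent.H.MP_341645_pr
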