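import Pool.Agent.H.MP_341645_pr.G

set_option autoImplicit false

namespace Pool.Agent.H.MP_341645_pr

noncomputable section

variable {α : Type} [DecidableEq α]

def D : (List α → ℝ) → List α → ℝ
  | _, [] => 0
  | f, c :: x => f x + D (fun y => f (c :: y)) x

def K : (List α → ℝ) → List α → ℝ
  | f, c :: d :: x => (if c = d then f (d :: x) else 0) + K (fun y => f (c :: y)) (d :: x)
  | _, _ => 0

def Pr : List α → Prop
  | c :: d :: x => c ≠ d ∧ Pr (d :: x)
  | _ => True

omit [DecidableEq α] in
lemma Pr_tail {c : α} {x : List α} (h : Pr (c :: x)) : Pr x := by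
  rcases x with _ | ⟨d, x⟩
  · trivial
  · exact h.2

omit [DecidableEq α] in
lemma Pr_append {x y : List α} (h : Pr (x ++ y)) : Pr x ∧ Pr y := by
  induction x with
  | nil => exact ⟨trivial, h⟩
  | cons c x ih =>
    refine ⟨?_, (ih (Pr_tail h)).2⟩
    rcases x with _ | ⟨d, x⟩
    · trivial
    · exact ⟨h.1, (ih h.2).1⟩

omit [DecidableEq α] in
lemma D_congr {f g : List α → ℝ} {x : List α} (h : ∀ w, w.length + 1 = x.length → f w = g w) :
    D f x = D g x := by
  induction x generalizing f g with
  | nil => rfl
  | cons c x ih => rw [D, D, h x rfl, ih fun w hw => h _ (by simp [hw])]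

omit [DecidableEq α] in
lemma D_mul (t : ℝ) (f : List α → ℝ) (x : List α) : D (fun w => t * f w) x = t * D f x := by
  induction x generalizing f with
  | nil => simp [D]
  | cons c x ih => rw [D, D, ih, mul_add]

omit [DecidableEq α] in
lemma D_sum {ι : Type} [Fintype ι] (f : ι → List α → ℝ) (x : List α) :
    ∑ a, D (f a) x = D (fun w => ∑ a, f a w) x := by
  induction x generalizing f with
  | nil => simp [D]
  | cons c x ih => simp only [D, Finset.sum_add_distrib, ih]

omit [DecidableEq α] in
lemma D_nonneg {f : List α → ℝ} (h : ∀ w, 0 ≤ f w) (x : List α) : 0 ≤ D f x := by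
  induction x generalizing f with
  | nil => exact le_rfl
  | cons c x ih => exact add_nonneg (h _) (ih fun w => h _)

omit [DecidableEq α] in
lemma D_append (f : List α → ℝ) (x y : List α) :
    D f (x ++ y) = D (fun w => f (w ++ y)) x + D (fun w => f (x ++ w)) y := by
  induction x generalizing f with
  | nil => simp [D]
  | cons c x ih => simp only [List.cons_append, D, ih, add_assoc]

lemma K_pr (f : List α → ℝ) {x : List α} (h : Pr x) : K f x = 0 := by
  induction x generalizing f with
  | nil => rfl
  | cons c x ih =>
    rcases x with _ | ⟨d, x⟩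
    · rfl
    · rw [K, if_neg h.1, ih _ h.2, add_zero]

lemma D_K {f : List α → ℝ} (hf : ∀ w, ¬ Pr w → f w = 0) {x : List α} (h : ¬ Pr x) :
    D f x = 2 * K f x := by
  induction x generalizing f with
  | nil => exact absurd trivial h
  | cons c x ih =>
    rcases x with _ | ⟨d, x⟩
    · exact absurd trivial h
    · rw [K, D]
      by_cases h2 : Pr (d :: x)
      · obtain rfl : c = d := by
          by_contra e; exact h ⟨e, h2⟩
        have : D (fun y => f (c :: c :: y)) x = D (fun y => 0 * f y) x :=
          D_congr fun w _ => by rw [zero_mul]; exact hf _ fun e => e.1 rfl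
        rw [K_pr _ h2, D, this, D_mul, if_pos rfl]; ring
      · rw [ih (fun w hw => hf _ fun e => hw (Pr_tail e)) h2, hf _ h2]; simp

lemma K_sum [Fintype α] (f : List α → ℝ) (c : α) (x y : List α) (h : Pr (c :: x)) :
    ∑ a, K f (c :: x ++ a :: y) = f (c :: x ++ y) + ∑ a, K (fun w => f (c :: x ++ w)) (a :: y) := by
  induction x generalizing f c with
  | nil => simp [K, Finset.sum_add_distrib]
  | cons d x ih =>
    have := ih (fun y => f (c :: y)) d h.2
    simp only [List.cons_append] at this ⊢
    simp only [K, if_neg h.1, zero_add, this]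

lemma K_sum' [Fintype α] (f : List α → ℝ) (c : α) (x : List α) (h : Pr (c :: x)) :
    ∑ a, K f (a :: c :: x) = f (c :: x) := by
  simp [K, K_pr _ h]

variable {q : ℕ}

open Classical in
def Hh : ℕ → List (Fin (q + 2)) → ℝ
  | 0, _ => 1
  | n+1, x => if Pr x then D (Hh n) x / (n * q + q + 2) else 0

def WH (x : List (Fin (q + 2))) : ℝ := Hh x.length x

lemma WH_nil : WH ([] : List (Fin (q + 2))) = 1 := rfl

lemma WH_np (x : List (Fin (q + 2))) (h : ¬ Pr x) : WH x = 0 := by
  rcases x with _ | ⟨c, x⟩
  · exact absurd trivial h
  · simp [WH, Hh, h]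

lemma WH_nonneg (x : List (Fin (q + 2))) : 0 ≤ WH x := by
  unfold WH
  generalize x.length = n
  induction n generalizing x with
  | zero => exact zero_le_one
  | succ n ih =>
    rw [Hh]; split_ifs
    · exact div_nonneg (D_nonneg ih _) (by positivity)
    · exact le_rfl

lemma WH_rec (x : List (Fin (q + 2))) (hx : x ≠ []) :
    (x.length * q + 2) * WH x = D WH x - 2 * K WH x := by
  by_cases h : Pr x
  · obtain ⟨c, x, rfl⟩ := List.exists_cons_of_ne_nil hx
    rw [K_pr _ h, WH, List.length_cons, Hh, if_pos h,
      D_congr (f := WH) (g := Hh x.length) fun w hw => by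
        rw [WH, show w.length = x.length by simpa using hw]]
    push_cast; field_simp; ring
  · rw [WH_np x h, D_K WH_np h]; ring

lemma WH_D (x : List (Fin (q + 2))) (hx : x ≠ []) (h : Pr x) : D WH x = (x.length * q + 2) * WH x := by
  rw [WH_rec x hx, K_pr _ h]; ring

lemma WH_left (x : List (Fin (q + 2))) : ∑ a, WH (a :: x) = WH x := by
  generalize hn : x.length = n
  induction n generalizing x with
  | zero =>
    obtain rfl := List.length_eq_zero_iff.1 hn
    simp [WH, Hh, Pr, D]; field_simp
  | succ n ih =>
    by_cases h : Pr x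
    · obtain ⟨c, x, rfl⟩ := List.exists_cons_of_length_eq_add_one hn
      have h1 := Finset.sum_congr (s₁ := Finset.univ) rfl fun a _ => WH_rec (a :: c :: x) (by simp)
      rw [Finset.sum_sub_distrib, ← Finset.mul_sum (f := fun a => K WH (a :: c :: x)), K_sum' _ _ _ h] at h1
      simp only [List.length_cons, ← Finset.mul_sum] at h1
      have h2 : ∑ a, D WH (a :: c :: x) = (q + 2) * WH (c :: x) + D WH (c :: x) := by
        have : ∀ a, D WH (a :: c :: x) = WH (c :: x) + D (fun y => WH (a :: y)) (c :: x) := fun a => rfl
        simp only [this, Finset.sum_add_distrib, D_sum]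
        rw [D_congr (g := WH) fun w hw => ih w (by omega)]
        simp
      rw [h2, WH_D _ (by simp) h] at h1
      simp only [List.length_cons] at h1
      push_cast at h1
      refine mul_left_cancel₀ (a := ((x.length + 1 + 1) * q + 2 : ℝ)) (by positivity) ?_
      linear_combination h1
    · rw [WH_np x h]
      exact Finset.sum_eq_zero fun a _ => WH_np _ fun e => h (Pr_tail e)

lemma WH_right (x : List (Fin (q + 2))) : ∑ a, WH (x ++ [a]) = WH x := by
  generalize hn : x.length = n
  induction n generalizing x with
  | zero =>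
    obtain rfl := List.length_eq_zero_iff.1 hn
    exact WH_left []
  | succ n ih =>
    by_cases h : Pr x
    · obtain ⟨c, x, rfl⟩ := List.exists_cons_of_length_eq_add_one hn
      have h1 := Finset.sum_congr (s₁ := Finset.univ) rfl fun a _ => WH_rec (c :: x ++ [a]) (by simp)
      rw [Finset.sum_sub_distrib, ← Finset.mul_sum (f := fun a => K WH (c :: x ++ [a])),
        K_sum _ _ _ _ h] at h1
      simp only [List.length_append, List.length_cons, List.length_nil, ← Finset.mul_sum, K,
        List.append_nil, Finset.sum_const_zero] at h1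
      have h2 : ∑ a, D WH (c :: x ++ [a]) = (q + 2) * WH (c :: x) + D WH (c :: x) := by
        simp only [D_append, Finset.sum_add_distrib, D_sum]
        rw [D_congr (g := WH) fun w hw => ih w (by omega)]
        simp [D, add_comm]
      rw [h2, WH_D _ (by simp) h] at h1
      simp only [List.length_cons] at h1
      push_cast at h1
      refine mul_left_cancel₀ (a := ((x.length + 1 + 1) * q + 2 : ℝ)) (by positivity) ?_
      linear_combination h1
    · rw [WH_np x h]
      exact Finset.sum_eq_zero fun a _ => WH_np _ fun e => h (Pr_append e).1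

lemma WH_gap3 (n : ℕ) : ∀ x y : List (Fin (1 + 2)), x.length + y.length = n →
    ∑ a, ∑ b, WH (x ++ a :: b :: y) = WH x * WH y := by
  induction n with
  | zero =>
    intro x y h
    obtain rfl : x = [] := List.length_eq_zero_iff.1 (by omega)
    rw [Finset.sum_comm]
    simp only [List.nil_append, WH_left, WH_nil, one_mul]
  | succ n ih =>
    intro x y hn
    rcases x with _ | ⟨c, x⟩
    · rw [Finset.sum_comm]
      simp only [List.nil_append, WH_left, WH_nil, one_mul]
    rcases y with _ | ⟨d, y⟩
    · have := fun a => WH_right (c :: x ++ [a])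
      simp only [List.append_assoc, List.cons_append, List.nil_append] at this ⊢
      simp only [this, WH_nil, mul_one]
      exact WH_right (c :: x)
    by_cases hx : Pr (c :: x)
    swap
    · rw [WH_np _ hx, zero_mul]
      exact Finset.sum_eq_zero fun a _ => Finset.sum_eq_zero fun b _ =>
        WH_np _ fun e => hx (Pr_append e).1
    by_cases hy : Pr (d :: y)
    swap
    · rw [WH_np _ hy, mul_zero]
      exact Finset.sum_eq_zero fun a _ => Finset.sum_eq_zero fun b _ =>
        WH_np _ fun e => hy (Pr_tail (Pr_tail (Pr_append e).2))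
    have h1 : ∑ a, ∑ b, _ = ∑ a, ∑ b, _ := Finset.sum_congr (s₁ := Finset.univ) rfl fun a _ =>
      Finset.sum_congr (s₁ := Finset.univ) rfl fun b _ => WH_rec (c :: x ++ a :: b :: d :: y) (by simp)
    have h2 : ∑ a, ∑ b, K WH (c :: x ++ a :: b :: d :: y) = 3 * ∑ a, WH (c :: x ++ a :: d :: y) := by
      rw [Finset.sum_comm]
      simp only [K_sum _ _ _ _ hx]
      have : ∀ a b, K (fun w => WH (c :: x ++ w)) (a :: b :: d :: y) =
        (if a = b then WH (c :: x ++ b :: d :: y) else 0) +
          K (fun w => WH (c :: x ++ a :: w)) (b :: d :: y) := fun a b => rfl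
      simp only [this, Finset.sum_add_distrib]
      rw [Finset.sum_comm (f := fun b a => K (fun w => WH (c :: x ++ a :: w)) (b :: d :: y))]
      simp only [K_sum' _ _ _ hy]
      simp; ring
    have h3 : ∑ a, ∑ b, D WH (c :: x ++ a :: b :: d :: y) = 6 * ∑ a, WH (c :: x ++ a :: d :: y)
        + D WH (c :: x) * WH (d :: y) + WH (c :: x) * D WH (d :: y) := by
      have : ∀ a b, D (fun w => WH (c :: x ++ w)) (a :: b :: d :: y) = WH (c :: x ++ b :: d :: y) +
        (WH (c :: x ++ a :: d :: y) + D (fun w => WH (c :: x ++ a :: b :: w)) (d :: y)) := fun a b => rfl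
      simp only [D_append, this, Finset.sum_add_distrib, D_sum]
      rw [D_congr (g := fun w => WH (d :: y) * WH w) fun w hw => by
          rw [ih w _ (by omega), mul_comm],
        D_congr (x := d :: y) (g := fun w => WH (c :: x) * WH w) fun w hw => ih _ w (by omega),
        D_mul, D_mul]
      simp [← Finset.mul_sum]; ring
    simp only [Finset.sum_sub_distrib, ← Finset.mul_sum, List.length_append, List.length_cons] at h1
    rw [h2, h3, WH_D _ (by simp) hx, WH_D _ (by simp) hy] at h1
    simp only [List.length_cons] at h1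
    push_cast at h1
    refine mul_left_cancel₀ (a := (x.length + y.length + 6 : ℝ)) (by positivity) ?_
    linear_combination h1

lemma WH_010 : WH (q := 1) [0, 1, 0] = 1 / 15 := by
  simp [WH, Hh, Pr, D]; norm_num

end

end Pool.Agent.H.MP_341645_pr
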