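import Pool.Agent.H.MP_341645_pr.P
import Pool.Agent.H.MP_341645_pr.G

set_option autoImplicit false

namespace Pool.Agent.H.MP_341645_pr

noncomputable section

def Am : St →ₗ[ℝ] St where
  toFun := am
  map_add' := by
    rintro ⟨a, b, x, y, z, p, s, q⟩ ⟨a', b', x', y', z', p', s', q'⟩
    simp only [am, St.a, St.b, St.x, St.y, St.z, St.p, St.s, St.q, Prod.mk_add_mk, Prod.mk.injEq,
      Pi.add_apply, and_true]
    refine ⟨by ring, by ring, by ring, by ring, by ring, ?_, ?_⟩ <;> funext i
    · rcases i with _ | i <;> simp only [cons, Pi.add_apply] <;> ring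
    · simp only [Pi.add_apply]; ring
  map_smul' := by
    rintro t ⟨a, b, x, y, z, p, s, q⟩
    simp only [am, St.a, St.b, St.x, St.y, St.z, St.p, St.s, St.q, Prod.smul_mk, Prod.mk.injEq,
      Pi.smul_apply, and_true, smul_eq_mul, RingHom.id_apply]
    refine ⟨by ring, by ring, by ring, by ring, by ring, ?_, ?_⟩ <;> funext i
    · rcases i with _ | i <;> simp only [cons, Pi.smul_apply, smul_eq_mul] <;> ring
    · simp only [Pi.smul_apply, smul_eq_mul]; ring

def Ap : St →ₗ[ℝ] St where
  toFun := ap
  map_add' := by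
    rintro ⟨a, b, x, y, z, p, s, q⟩ ⟨a', b', x', y', z', p', s', q'⟩
    simp only [ap, St.a, St.b, St.x, St.y, St.z, St.p, St.s, St.q, Prod.mk_add_mk, Prod.mk.injEq,
      Pi.add_apply, true_and]
    refine ⟨by ring, by ring, by ring, by ring, by ring, ?_, ?_⟩ <;> funext i
    · simp only [Pi.add_apply]; ring
    · rcases i with _ | i <;> simp only [cons, Pi.add_apply] <;> ring
  map_smul' := by
    rintro t ⟨a, b, x, y, z, p, s, q⟩
    simp only [ap, St.a, St.b, St.x, St.y, St.z, St.p, St.s, St.q, Prod.smul_mk, Prod.mk.injEq,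
      Pi.smul_apply, true_and, smul_eq_mul, RingHom.id_apply]
    refine ⟨by ring, by ring, by ring, by ring, by ring, ?_, ?_⟩ <;> funext i
    · simp only [Pi.smul_apply, smul_eq_mul]; ring
    · rcases i with _ | i <;> simp only [cons, Pi.smul_apply, smul_eq_mul] <;> ring

def ell (f : St) : ℝ := (f.a + f.b) / 8

lemma ell_add (f g : St) : ell (f + g) = ell f + ell g := by
  simp only [ell, St.a, St.b, Prod.fst_add, Prod.snd_add]; ring

lemma ell_smul (t : ℝ) (f : St) : ell (t • f) = t * ell f := by
  simp only [ell, St.a, St.b, Prod.smul_fst, Prod.smul_snd, smul_eq_mul]; ring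

lemma ell_zero : ell 0 = 0 := by simp [ell, St.a, St.b]

lemma ell_r0 : ell r0 = 1 := by norm_num [ell, r0, St.a, St.b]

lemma ell_step (f : St) : ell (ap f) + ell (am f) = 3 * ell f := by
  simp only [ell, ap, am, St.a, St.b, St.x, St.y]; ring

lemma id1 : ap r0 + am r0 = (3:ℝ) • r0 := by
  simp only [ap, am, r0, St.a, St.b, St.x, St.y, St.z, St.p, St.s, St.q, Prod.mk_add_mk,
    Prod.smul_mk, Prod.mk.injEq, smul_eq_mul, cons]
  refine ⟨by norm_num, by norm_num, by norm_num, by norm_num, by norm_num, ?_, ?_, ?_⟩ <;> funext i <;>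
    rcases i with _ | i <;> simp [cons] <;> norm_num

lemma id2 (f : St) : ap (ap (ap f)) + am (am (am f)) = (9 * ell f) • r0 := by
  obtain ⟨a, b, x, y, z, p, s, q⟩ := f
  simp only [ap, am, r0, ell, St.a, St.b, St.x, St.y, St.z, St.p, St.s, St.q, Prod.mk_add_mk,
    Prod.smul_mk, Prod.mk.injEq, smul_eq_mul, cons]
  refine ⟨by ring, by ring, by ring, by ring, by ring, ?_, ?_, ?_⟩ <;> funext i <;>
    rcases i with _ | _ | i <;> simp [cons] <;> ring

lemma id3 (f : St) : ap (ap (am f)) + ap (am (ap f)) + am (ap (ap f)) = (9 * ell f) • r0 := by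
  obtain ⟨a, b, x, y, z, p, s, q⟩ := f
  simp only [ap, am, r0, ell, St.a, St.b, St.x, St.y, St.z, St.p, St.s, St.q, Prod.mk_add_mk,
    Prod.smul_mk, Prod.mk.injEq, smul_eq_mul, cons]
  refine ⟨by ring, by ring, by ring, by ring, by ring, ?_, ?_, ?_⟩ <;> funext i <;>
    rcases i with _ | _ | i <;> simp [cons] <;> ring

lemma id4 (f : St) : am (am (ap f)) + am (ap (am f)) + ap (am (am f)) = (9 * ell f) • r0 := by
  obtain ⟨a, b, x, y, z, p, s, q⟩ := f
  simp only [ap, am, r0, ell, St.a, St.b, St.x, St.y, St.z, St.p, St.s, St.q, Prod.mk_add_mk,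
    Prod.smul_mk, Prod.mk.injEq, smul_eq_mul, cons]
  refine ⟨by ring, by ring, by ring, by ring, by ring, ?_, ?_, ?_⟩ <;> funext i <;>
    rcases i with _ | _ | i <;> simp [cons] <;> ring

def stp (c d : Fin 3) : St →ₗ[ℝ] St := if d = c + 1 then Ap else if c = d + 1 then Am else 0

def V : Fin 3 → List (Fin 3) → St
  | _, [] => r0
  | c, d :: w => stp c d (V d w)

def LN : List (Fin 3) → ℝ
  | [] => 1
  | c :: w => ell (V c w)

def WN (w : List (Fin 3)) : ℝ := LN w / 3 ^ w.length

lemma Ap_eq (f : St) : Ap f = ap f := rfl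
lemma Am_eq (f : St) : Am f = am f := rfl

lemma V_good (c : Fin 3) (w : List (Fin 3)) : V c w = 0 ∨ Good (V c w) := by
  induction w generalizing c with
  | nil => exact Or.inr good_r0
  | cons d w ih =>
    rw [V]
    rcases ih d with h | h
    · left; rw [h, map_zero]
    · unfold stp
      split_ifs
      · exact Or.inr (good_step h).2.1
      · exact Or.inr (good_step h).1
      · exact Or.inl rfl

lemma WN_nonneg (w : List (Fin 3)) : 0 ≤ WN w := by
  refine div_nonneg ?_ (by positivity)
  rcases w with _ | ⟨c, w⟩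
  · exact zero_le_one
  · rcases V_good c w with h | h
    · rw [LN, h, ell_zero]
    · exact div_nonneg (good_step h).2.2 (by norm_num)

lemma LN_left (w : List (Fin 3)) : ∑ c, LN (c :: w) = 3 * LN w := by
  rcases w with _ | ⟨d, w⟩
  · simp [LN, V, ell_r0]
  · have := ell_step (V d w)
    fin_cases d <;> simp [LN, V, Fin.sum_univ_three, stp, Ap_eq, Am_eq, ell_zero] at this ⊢ <;> linarith

lemma V_right (c : Fin 3) (w : List (Fin 3)) : ∑ d, V c (w ++ [d]) = (3:ℝ) • V c w := by
  induction w generalizing c with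
  | nil =>
    have := id1
    fin_cases c <;> simp [V, Fin.sum_univ_three, stp, Ap_eq, Am_eq, ← this, add_comm]
  | cons e w ih => simp only [List.cons_append, V, ← map_sum, ih, map_smul]

lemma V_gap (c : Fin 3) (x y : List (Fin 3)) :
    ∑ u, ∑ v, V c (x ++ u :: v :: y) = (9 * LN y) • V c x := by
  induction x generalizing c with
  | nil =>
    rcases y with _ | ⟨d, y⟩
    · have h := fun u => V_right c [u]
      have h2 := V_right c []
      simp only [List.cons_append, List.nil_append] at h h2 ⊢
      simp only [h, ← Finset.smul_sum, h2, smul_smul, LN]; norm_num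
    · have h2 := id2 (V d y)
      have p0 : ap 0 = 0 := map_zero Ap
      have m0 : am 0 = 0 := map_zero Am
      have h3 := id3 (V d y)
      have h4 := id4 (V d y)
      simp only [List.nil_append, V, LN]
      generalize V d y = f at *
      fin_cases c <;> fin_cases d <;> simp [Fin.sum_univ_three, stp, Ap_eq, Am_eq, p0, m0] <;>
        first | (rw [← h2]; abel1) | (rw [← h3]; abel1) | (rw [← h4]; abel1) | exact h2 | exact h3 | exact h4
  | cons e w ih => simp only [List.cons_append, V, ← map_sum, ih, map_smul]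

lemma ell_sum (g : Fin 3 → St) : ∑ c, ell (g c) = ell (∑ c, g c) := by
  simp [Fin.sum_univ_three, ell_add]

lemma WN_left (w : List (Fin 3)) : ∑ c, WN (c :: w) = WN w := by
  simp only [WN, List.length_cons, ← Finset.sum_div, LN_left]; field_simp; ring

lemma WN_right (w : List (Fin 3)) : ∑ c, WN (w ++ [c]) = WN w := by
  rcases w with _ | ⟨d, w⟩
  · exact WN_left []
  · simp only [WN, List.cons_append, List.length_cons, List.length_append, List.length_nil,
      ← Finset.sum_div, LN, ell_sum, V_right, ell_smul]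
    field_simp; ring

lemma WN_gap (x y : List (Fin 3)) : sw 2 (fun w => WN (x ++ (w ++ y))) = WN x * WN y := by
  simp only [sw, List.cons_append, List.nil_append]
  rcases x with _ | ⟨d, x⟩
  · simp only [List.nil_append]
    rw [Finset.sum_comm]
    simp only [WN_left]; simp [WN, LN]
  · simp only [WN, List.cons_append, List.length_cons, List.length_append,
      ← Finset.sum_div, LN, ell_sum, V_gap, ell_smul]
    field_simp; ring

lemma WN_pp (c : Fin 3) : WN [c, c] = 0 := by
  fin_cases c <;> simp [WN, LN, V, stp, ell_zero]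

lemma WN_010 : WN [0, 1, 0] = 131 / 1944 := by
  simp [WN, LN, V, stp, Ap_eq, Am_eq, ell, ap, am, r0, St.a, St.b, St.x, St.y, St.z]; norm_num

end

end Pool.Agent.H.MP_341645_pr
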