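import Mathlib

set_option autoImplicit false

namespace Pool.Agent.H.MP_341645_pr

noncomputable section

abbrev St := ℝ × ℝ × ℝ × ℝ × ℝ × (ℕ → ℝ) × (ℕ → ℝ) × (ℕ → ℝ)

def St.a (f : St) : ℝ := f.1
def St.b (f : St) : ℝ := f.2.1
def St.x (f : St) : ℝ := f.2.2.1
def St.y (f : St) : ℝ := f.2.2.2.1
def St.z (f : St) : ℝ := f.2.2.2.2.1
def St.p (f : St) : ℕ → ℝ := f.2.2.2.2.2.1
def St.s (f : St) : ℕ → ℝ := f.2.2.2.2.2.2.1
def St.q (f : St) : ℕ → ℝ := f.2.2.2.2.2.2.2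

def cons (t : ℝ) (u : ℕ → ℝ) : ℕ → ℝ
  | 0 => t
  | i+1 => u i

def am (f : St) : St := (f.b - f.y, f.a + f.b + f.y, (f.b - f.z)/2, (f.a + f.b)/2 - f.x,
  (f.q 0 + f.y)/2, fun i => (f.s i - cons f.z f.s i)/2, fun i => (f.q i + f.q (i+1))/2, f.p)

def ap (f : St) : St := (f.a + f.b + f.x, f.a - f.x, (f.a + f.b)/2 - f.y, (f.a - f.z)/2,
  (f.p 0 + f.x)/2, f.q, fun i => (f.p (i+1) - f.p i)/2, fun i => -(f.s i + cons f.z f.s i)/2)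

def mir (f : St) : St := (f.b, f.a, f.y, f.x, f.z, fun i => (-1)^i * f.q i,
  fun i => -(-1)^i * f.s i, fun i => (-1)^i * f.p i)

def phi (f : St) : St := (f.a - f.x, f.a + f.b + f.x, (f.a - f.z)/2, (f.a + f.b)/2 - f.y,
  (f.p 0 + f.x)/2, fun i => -(-1)^i * (f.s i + 1 * cons f.z f.s i)/2,
  fun i => -(-1)^i * (f.p (i+1) + (-1) * f.p i)/2, fun i => (-1)^i * f.q i)

def r0 : St := (4, 4, 13/9, 13/9, 4/9, cons (-1/9) 0, 0, cons (-1/9) 0)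

lemma mir_ap (f : St) : mir (ap f) = phi f := by
  obtain ⟨a, b, x, y, z, p, s, q⟩ := f
  simp only [mir, ap, phi, St.a, St.b, St.x, St.y, St.z, St.p, St.s, St.q, Prod.mk.injEq, true_and,
    and_true]
  constructor <;> (funext i; ring)

lemma am_mir (f : St) : am (mir f) = phi f := by
  obtain ⟨a, b, x, y, z, p, s, q⟩ := f
  simp only [mir, am, phi, St.a, St.b, St.x, St.y, St.z, St.p, St.s, St.q, Prod.mk.injEq, true_and,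
    and_true]
  refine ⟨by ring, by ring, by ring, ?_, ?_⟩
  · funext i; rcases i with _ | i <;> simp only [cons] <;> ring
  · funext i; ring

lemma mir_mir (f : St) : mir (mir f) = f := by
  obtain ⟨a, b, x, y, z, p, s, q⟩ := f
  have h : ∀ i : ℕ, (-1:ℝ)^i * (-1)^i = 1 := fun i => by rw [← mul_pow]; simp
  simp only [mir, St.a, St.b, St.x, St.y, St.z, St.p, St.s, St.q, Prod.mk.injEq, true_and]
  refine ⟨?_, ?_, ?_⟩ <;> funext i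
  · linear_combination p i * h i
  · linear_combination s i * h i
  · linear_combination q i * h i

lemma mir_r0 : mir r0 = r0 := by
  simp only [mir, r0, St.a, St.b, St.x, St.y, St.z, St.p, St.s, St.q, Prod.mk.injEq, true_and]
  refine ⟨?_, ?_, ?_⟩ <;> funext i <;> rcases i with _ | i <;> simp [cons]

lemma phi_a (f : St) : (phi f).a = f.a - f.x := rfl
lemma phi_b (f : St) : (phi f).b = f.a + f.b + f.x := rfl
lemma phi_x (f : St) : (phi f).x = (f.a - f.z)/2 := rfl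
lemma phi_y (f : St) : (phi f).y = (f.a + f.b)/2 - f.y := rfl
lemma phi_z (f : St) : (phi f).z = (f.p 0 + f.x)/2 := rfl
lemma phi_p (f : St) : (phi f).p = fun i => -(-1)^i * (f.s i + 1 * cons f.z f.s i)/2 := rfl
lemma phi_s (f : St) : (phi f).s = fun i => -(-1)^i * (f.p (i+1) + (-1) * f.p i)/2 := rfl
lemma phi_q (f : St) : (phi f).q = fun i => (-1)^i * f.q i := rfl
lemma phi_p0 (f : St) : (phi f).p 0 = -(f.s 0 + f.z)/2 := by simp [phi_p, cons]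
lemma phi_s0 (f : St) : (phi f).s 0 = -(f.p 1 - f.p 0)/2 := by simp [phi_s]; ring
lemma phi_q0 (f : St) : (phi f).q 0 = f.q 0 := by simp [phi_q]

def Tail (f : St) (P S Q : ℝ) : Prop := ∀ i, |f.p (i+1)| ≤ P ∧ |f.s (i+1)| ≤ S ∧ |f.q (i+1)| ≤ Q

lemma abs_sg (i : ℕ) (t : ℝ) : |-(-1)^i * t / 2| = |t| / 2 := by
  rw [abs_div, abs_mul, abs_neg, abs_pow]; simp

lemma tail_phi {f : St} {P S Q P' : ℝ} (h : Tail f P S Q) (h1 : |f.s 1 + f.s 0| ≤ 2 * P')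
    (h2 : S ≤ P') : Tail (phi f) P' P Q := by
  intro i
  refine ⟨?_, ?_, ?_⟩
  · simp only [phi_p, abs_sg, cons, one_mul]
    rcases i with _ | i
    · simp only [zero_add]; linarith
    · have := abs_add_le (f.s (i+1+1)) (f.s (i+1))
      linarith [(h i).2.1, (h (i+1)).2.1]
  · simp only [phi_s, abs_sg]
    have := abs_sub (f.p (i+1+1)) (f.p (i+1))
    rw [neg_one_mul, ← sub_eq_add_neg]
    linarith [(h i).1, (h (i+1)).1]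
  · simp only [phi_q, abs_mul, abs_pow, abs_neg, abs_one, one_pow, one_mul]
    exact (h i).2.2

def Box (a b x y z p s q : ℝ) : Prop :=
  0 ≤ a + b ∧ 0.183 * (a+b) ≤ a ∧ a ≤ 0.427 * (a+b) ∧ 0.135 * (a+b) ≤ y ∧ y ≤ 0.284 * (a+b) ∧
  0.025 * (a+b) ≤ z ∧ z ≤ 0.103 * (a+b) ∧ -0.13 * (a+b) ≤ a - 2*x + z ∧ a - 2*x + z ≤ 0.035 * (a+b) ∧
  -0.041 * (a+b) ≤ p ∧ p ≤ 0.033 * (a+b) ∧ -0.025 * (a+b) ≤ s ∧ s ≤ 0.025 * (a+b) ∧
  -0.036 * (a+b) ≤ q ∧ q ≤ 0.038 * (a+b) ∧ -0.046 * (a+b) ≤ a/2 - 0.75*x - p/4 ∧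
  a/2 - 0.75*x - p/4 ≤ 0.05 * (a+b) ∧ 0.1478 * (a+b) ≤ x ∧ x ≤ 0.271 * (a+b)

def C (f : St) : Prop := Box f.a f.b f.x f.y f.z (f.p 0) (f.s 0) (f.q 0) ∧
  Tail f (0.038 * (f.a + f.b)) (0.025 * (f.a + f.b)) (0.038 * (f.a + f.b))

lemma psi_C (f : St) {P S Q : ℝ} (h : Tail f P S Q)
    (hb : Box (f.b - f.y) (f.a + f.b + f.y) ((f.b - f.z)/2) ((f.a + f.b)/2 - f.x) ((f.q 0 + f.y)/2)
      ((f.s 0 - f.z)/2) ((f.q 0 + f.q 1)/2) (f.p 0) ∧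
      f.s 1 - f.s 0 ≤ 0.076 * (f.a + 2 * f.b) ∧ f.s 0 - f.s 1 ≤ 0.076 * (f.a + 2 * f.b) ∧
      S ≤ 0.038 * (f.a + 2 * f.b) ∧ Q ≤ 0.025 * (f.a + 2 * f.b) ∧ P ≤ 0.038 * (f.a + 2 * f.b)) :
    C (am f) := by
  obtain ⟨hb, h1, h2, h3, h4, h5⟩ := hb
  refine ⟨hb, fun i => ?_⟩
  have e : (am f).a + (am f).b = f.a + 2 * f.b := by
    show f.b - f.y + (f.a + f.b + f.y) = _; ring
  rw [e]
  refine ⟨?_, ?_, ?_⟩
  · show |(f.s (i+1) - f.s i)/2| ≤ _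
    rcases i with _ | i
    · rw [abs_le]; constructor <;> simp only [zero_add] <;> linarith
    · have := abs_le.1 (h i).2.1
      have := abs_le.1 (h (i+1)).2.1
      rw [abs_le]; constructor <;> linarith
  · show |(f.q (i+1) + f.q (i+1+1))/2| ≤ _
    have := abs_le.1 (h i).2.2
    have := abs_le.1 (h (i+1)).2.2
    rw [abs_le]; constructor <;> linarith
  · show |f.p (i+1)| ≤ _
    linarith [(h i).1]

lemma tails {f : St} (h : C f) :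
    Tail (phi f) (0.025 * (f.a + f.b)) (0.038 * (f.a + f.b)) (0.038 * (f.a + f.b)) ∧
    Tail (phi (phi f)) (0.03875 * (f.a + f.b)) (0.025 * (f.a + f.b)) (0.038 * (f.a + f.b)) ∧
    Tail (phi (phi (phi f))) (0.035 * (f.a + f.b)) (0.03875 * (f.a + f.b)) (0.038 * (f.a + f.b)) := by
  obtain ⟨⟨b0, b1, b2, b3, b4, b5, b6, b7, b8, b9, c0, c1, c2, c3, c4, c5, c6, c7, c8⟩, t0⟩ := h
  obtain ⟨u1, u2⟩ := abs_le.1 (t0 0).1
  obtain ⟨u3, u4⟩ := abs_le.1 (t0 0).2.1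
  simp only [zero_add] at u1 u2 u3 u4
  have t1 := tail_phi (P' := 0.025 * (f.a + f.b)) t0 (by rw [abs_le]; constructor <;> linarith) le_rfl
  obtain ⟨v1, v2⟩ := abs_le.1 (t1 0).1
  obtain ⟨v3, v4⟩ := abs_le.1 (t1 0).2.1
  simp only [zero_add] at v1 v2 v3 v4
  have t2 := tail_phi (P' := 0.03875 * (f.a + f.b)) t1
    (by rw [abs_le, phi_s0]; constructor <;> linarith) (by linarith)
  obtain ⟨w3, w4⟩ := abs_le.1 (t2 0).2.1
  simp only [zero_add] at w3 w4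
  exact ⟨t1, t2, tail_phi t2 (by rw [abs_le, phi_s0, phi_p0]; constructor <;> linarith) (by linarith)⟩

lemma C0 {f : St} (h : C f) : C (am f) := by
  obtain ⟨⟨b0, b1, b2, b3, b4, b5, b6, b7, b8, b9, c0, c1, c2, c3, c4, c5, c6, c7, c8⟩, t0⟩ := h
  obtain ⟨u3, u4⟩ := abs_le.1 (t0 0).2.1
  obtain ⟨u5, u6⟩ := abs_le.1 (t0 0).2.2
  simp only [zero_add] at u3 u4 u5 u6
  refine psi_C f t0 ?_
  unfold Box
  refine ⟨⟨?_, ?_, ?_, ?_, ?_, ?_, ?_, ?_, ?_, ?_, ?_, ?_, ?_, ?_, ?_, ?_, ?_, ?_, ?_⟩, ?_, ?_, ?_, ?_, ?_⟩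
  all_goals linarith

lemma C1 {f : St} (h : C f) : C (am (phi f)) := by
  obtain ⟨t1, -, -⟩ := tails h
  obtain ⟨⟨b0, b1, b2, b3, b4, b5, b6, b7, b8, b9, c0, c1, c2, c3, c4, c5, c6, c7, c8⟩, t0⟩ := h
  obtain ⟨u1, u2⟩ := abs_le.1 (t0 0).1
  obtain ⟨v3, v4⟩ := abs_le.1 (t1 0).2.1
  obtain ⟨v5, v6⟩ := abs_le.1 (t1 0).2.2
  simp only [zero_add] at u1 u2 v3 v4 v5 v6
  refine psi_C _ t1 ?_
  unfold Box
  simp only [phi_a, phi_b, phi_x, phi_y, phi_z, phi_p0, phi_s0, phi_q0]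
  refine ⟨⟨?_, ?_, ?_, ?_, ?_, ?_, ?_, ?_, ?_, ?_, ?_, ?_, ?_, ?_, ?_, ?_, ?_, ?_, ?_⟩, ?_, ?_, ?_, ?_, ?_⟩
  all_goals linarith

lemma C2 {f : St} (h : C f) : C (am (phi (phi f))) := by
  obtain ⟨t1, t2, -⟩ := tails h
  obtain ⟨⟨b0, b1, b2, b3, b4, b5, b6, b7, b8, b9, c0, c1, c2, c3, c4, c5, c6, c7, c8⟩, t0⟩ := h
  obtain ⟨u1, u2⟩ := abs_le.1 (t0 0).1
  obtain ⟨v1, v2⟩ := abs_le.1 (t1 0).1
  obtain ⟨v3, v4⟩ := abs_le.1 (t2 0).2.1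
  obtain ⟨v5, v6⟩ := abs_le.1 (t2 0).2.2
  simp only [zero_add] at u1 u2 v1 v2 v3 v4 v5 v6
  refine psi_C _ t2 ?_
  unfold Box
  simp only [phi_a, phi_b, phi_x, phi_y, phi_z, phi_p0, phi_s0, phi_q0]
  refine ⟨⟨?_, ?_, ?_, ?_, ?_, ?_, ?_, ?_, ?_, ?_, ?_, ?_, ?_, ?_, ?_, ?_, ?_, ?_, ?_⟩, ?_, ?_, ?_, ?_, ?_⟩
  all_goals linarith

def rho : ℝ := Real.sqrt 2 - 1

lemma rho_sq : rho^2 = 1 - 2 * rho := by
  have : Real.sqrt 2 ^ 2 = 2 := Real.sq_sqrt (by norm_num)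
  unfold rho; linear_combination this

lemma rho_apx : 0.4142135 ≤ rho ∧ rho ≤ 0.4142136 := by
  unfold rho
  constructor
  · have : (1.4142135:ℝ) ≤ Real.sqrt 2 := Real.le_sqrt_of_sq_le (by norm_num)
    linarith
  · have : Real.sqrt 2 ≤ (1.4142136:ℝ) := Real.sqrt_le_iff.2 ⟨by norm_num, by norm_num⟩
    linarith

lemma apx {U B : ℝ} (h1 : -B ≤ U) (h2 : U ≤ B) :
    0.4142135 * U - 0.0000001 * B ≤ rho * U ∧ rho * U ≤ 0.4142135 * U + 0.0000001 * B := by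
  obtain ⟨r1, r2⟩ := rho_apx
  constructor <;> nlinarith

def E (t : ℝ) (u : ℕ → ℝ) : ℝ := ∑' i, t^i * u i

lemma sm_bd {t B : ℝ} {u : ℕ → ℝ} (ht : |t| ≤ 0.1716) (h : ∀ i, |u i| ≤ B) :
    (Summable fun i => t^i * u i) ∧ |E t u| ≤ 1.2072 * B := by
  have hB : 0 ≤ B := (abs_nonneg _).trans (h 0)
  have hs : HasSum (fun i : ℕ => B * (0.1716:ℝ)^i) (B * (1 - 0.1716)⁻¹) :=
    (hasSum_geometric_of_lt_one (by norm_num) (by norm_num)).mul_left B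
  have hb : ∀ i, ‖t^i * u i‖ ≤ B * (0.1716:ℝ)^i := fun i => by
    rw [Real.norm_eq_abs, abs_mul, abs_pow, mul_comm]
    exact mul_le_mul (h i) (pow_le_pow_left₀ (abs_nonneg _) ht i) (by positivity) hB
  refine ⟨Summable.of_norm_bounded hs.summable hb, ?_⟩
  have := tsum_of_norm_bounded hs hb
  rw [Real.norm_eq_abs] at this
  refine this.trans ?_
  rw [mul_comm]
  exact mul_le_mul_of_nonneg_right (by norm_num) hB

lemma sm_shift {t : ℝ} {u : ℕ → ℝ} (h : Summable fun i => t^i * u (i+1)) :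
    (Summable fun i => t^i * u i) ∧ E t u = u 0 + t * E t (fun i => u (i+1)) := by
  have h1 : Summable fun i => t^i * u i := by
    rw [← summable_nat_add_iff 1]
    refine (h.mul_left t).congr fun i => by ring
  refine ⟨h1, ?_⟩
  unfold E
  rw [h1.tsum_eq_zero_add, ← tsum_mul_left]
  simp only [pow_zero, one_mul, add_right_inj]
  exact tsum_congr fun i => by ring

lemma E_sg {t c : ℝ} {u v : ℕ → ℝ} (hu : Summable fun i => (-t)^i * u i)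
    (hv : Summable fun i => (-t)^i * v i) :
    E t (fun i => -(-1)^i * (u i + c * v i)/2) = -(E (-t) u + c * E (-t) v)/2 := by
  unfold E
  rw [← tsum_mul_left, ← hu.tsum_add (hv.mul_left c), ← tsum_neg, ← tsum_div_const]
  exact tsum_congr fun i => by rw [neg_pow t]; ring

def tau : ℝ := 1 - 2 * rho

lemma tau_le : |tau| ≤ 0.1716 := by
  obtain ⟨r1, r2⟩ := rho_apx
  unfold tau; rw [abs_le]; constructor <;> linarith

lemma tau_le' : |-tau| ≤ 0.1716 := by rw [abs_neg]; exact tau_le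

def Sv (f : St) : ℝ := f.b + (3 + rho) * f.a - 2 * f.x + 2 * rho * f.z + (2 - 4 * rho) * E tau f.p
  - (10 * rho - 4) * E (-tau) f.s

def Tv (f : St) : ℝ := f.y - f.b / 4 + (rho - 1) / 4 * f.a + (1 - 2 * rho) / 2 * f.x
  + (5 * rho - 2) / 2 * f.z + (6 * rho - 5 / 2) * E tau f.p + (6 - 29 / 2 * rho) * E (-tau) f.s

lemma ST_phi {f : St} {P S Q : ℝ} (h : Tail f P S Q) : Sv (phi f) = Sv f ∧ Tv (phi f) = -Tv f := by
  have s1 := (sm_bd tau_le (fun i => (h i).1)).1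
  obtain ⟨s2, e2⟩ := sm_shift s1
  obtain ⟨s3, -⟩ := sm_shift (sm_bd tau_le' (fun i => (h i).2.1)).1
  obtain ⟨s4, e4⟩ := sm_shift (u := cons f.z f.s) s3
  have e5 := E_sg (c := 1) s3 s4
  have e6 := E_sg (t := -tau) (c := -1) (u := fun i => f.p (i+1)) (v := f.p)
    (by rwa [neg_neg]) (by rwa [neg_neg])
  rw [neg_neg] at e6
  have e4' : E (-tau) (cons f.z f.s) = f.z + -tau * E (-tau) f.s := e4
  have hr := rho_sq
  unfold Sv Tv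
  rw [phi_p, phi_s, e5, e6, e4', e2, phi_a, phi_b, phi_x, phi_y, phi_z]
  generalize E tau (fun i => f.p (i+1)) = e
  generalize E (-tau) f.s = d
  unfold tau
  constructor
  · linear_combination (4 * d + 2 * e) * hr
  · linear_combination (-6 * d + 5 / 2 * e) * hr

lemma ST_form {f : St} {P S Q : ℝ} (h : Tail f P S Q) : ∃ e d : ℝ, |e| ≤ 1.2072 * P ∧ |d| ≤ 1.2072 * S ∧
    Sv f = f.b + 3 * f.a - 2 * f.x + 2 * f.p 0 + 10 * e + 4 * f.s 0 - 24 * d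
      + rho * (f.a + 2 * f.z - 4 * f.p 0 - 24 * e - 10 * f.s 0 + 58 * d) ∧
    Tv f = f.y - f.b / 4 - f.a / 4 + f.x / 2 - f.z - 5 / 2 * f.p 0 - 29 / 2 * e + 6 * f.s 0 - 35 * d
      + rho * (f.a / 4 - f.x + 5 / 2 * f.z + 6 * f.p 0 + 35 * e - 29 / 2 * f.s 0 + 169 / 2 * d) := by
  obtain ⟨s1, b1⟩ := sm_bd tau_le (fun i => (h i).1)
  obtain ⟨s2, b2⟩ := sm_bd tau_le' (fun i => (h i).2.1)
  refine ⟨_, _, b1, b2, ?_⟩
  have hr := rho_sq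
  unfold Sv Tv
  rw [(sm_shift s1).2, (sm_shift s2).2]
  generalize E tau (fun i => f.p (i+1)) = e
  generalize E (-tau) (fun i => f.s (i+1)) = d
  unfold tau
  constructor
  · linear_combination (8 * e - 20 * d) * hr
  · linear_combination (-12 * e - 29 * d) * hr

def R (f : St) : Prop := Tail f (0.056 * Sv f) (0.056 * Sv f) (0.036 * Sv f) ∧
  |f.p 0| ≤ 0.056 * Sv f ∧ |f.s 0| ≤ 0.056 * Sv f ∧ |f.q 0| ≤ 0.036 * Sv f ∧
  |f.a| ≤ 0.056 * Sv f ∧ |f.x| ≤ 0.056 * Sv f ∧ |f.z| ≤ 0.056 * Sv f ∧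
  |f.a - f.x| ≤ 0.056 * Sv f ∧ |f.a - 2 * f.x + f.z| ≤ 0.112 * Sv f ∧ |Tv f| ≤ 0.074 * Sv f

lemma R_phi {f : St} (h : R f) : R (phi f) := by
  obtain ⟨t, h1, h2, h3, h4, h5, h6, h7, h8, h9⟩ := h
  obtain ⟨e1, e2⟩ := ST_phi t
  have u1 := (t 0).1
  have u2 := (t 0).2.1
  simp only [zero_add] at u1 u2
  unfold R
  rw [e1, e2, abs_neg]
  simp only [phi_a, phi_x, phi_z, phi_p0, phi_s0, phi_q0]
  refine ⟨tail_phi t ?_ le_rfl, ?_, ?_, h3, h7, ?_, ?_, ?_, ?_, h9⟩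
  all_goals
    rw [abs_le] at *
    constructor <;> linarith [h1.1, h1.2, h2.1, h2.2, h4.1, h4.2, h5.1, h5.2, h6.1, h6.2, h8.1, h8.2,
      u1.1, u1.2, u2.1, u2.2]

lemma R_am {f : St} (h : R f) : C (am f) ∧ 0 ≤ f.a + f.b := by
  obtain ⟨t, h1, h2, h3, h4, h5, h6, h7, h8, h9⟩ := h
  obtain ⟨e, d, he, hd, eS, eT⟩ := ST_form t
  have u2 := (t 0).2.1
  have u3 := (t 0).2.2
  simp only [zero_add] at u2 u3
  generalize Sv f = S at *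
  generalize Tv f = T at *
  rw [abs_le] at h1 h2 h3 h4 h5 h6 h7 h8 h9 u2 u3 he hd
  obtain ⟨h1, h1'⟩ := h1
  obtain ⟨h2, h2'⟩ := h2
  obtain ⟨h3, h3'⟩ := h3
  obtain ⟨h4, h4'⟩ := h4
  obtain ⟨h5, h5'⟩ := h5
  obtain ⟨h6, h6'⟩ := h6
  obtain ⟨h7, h7'⟩ := h7
  obtain ⟨h8, h8'⟩ := h8
  obtain ⟨h9, h9'⟩ := h9
  obtain ⟨u2, u2'⟩ := u2
  obtain ⟨u3, u3'⟩ := u3
  obtain ⟨he, he'⟩ := he
  obtain ⟨hd, hd'⟩ := hd
  obtain ⟨a1, a2⟩ := apx (U := f.a + 2 * f.z - 4 * f.p 0 - 24 * e - 10 * f.s 0 + 58 * d) (B := 20 * S)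
    (by linarith) (by linarith)
  obtain ⟨a3, a4⟩ := apx (U := f.a / 4 - f.x + 5 / 2 * f.z + 6 * f.p 0 + 35 * e - 29 / 2 * f.s 0
    + 169 / 2 * d) (B := 20 * S) (by linarith) (by linarith)
  generalize rho * (f.a + 2 * f.z - 4 * f.p 0 - 24 * e - 10 * f.s 0 + 58 * d) = U at *
  generalize rho * (f.a / 4 - f.x + 5 / 2 * f.z + 6 * f.p 0 + 35 * e - 29 / 2 * f.s 0
    + 169 / 2 * d) = U' at *
  refine ⟨psi_C f t ?_, by linarith⟩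
  unfold Box
  refine ⟨⟨?_, ?_, ?_, ?_, ?_, ?_, ?_, ?_, ?_, ?_, ?_, ?_, ?_, ?_, ?_, ?_, ?_, ?_, ?_⟩, ?_, ?_, ?_, ?_, ?_⟩
  all_goals linarith

lemma C_R {f : St} (h : C f) : R (phi (phi (phi f))) := by
  obtain ⟨t1, t2, t3⟩ := tails h
  obtain ⟨⟨b0, b1, b2, b3, b4, b5, b6, b7, b8, b9, c0, c1, c2, c3, c4, c5, c6, c7, c8⟩, t0⟩ := h
  obtain ⟨e, d, he, hd, eS, eT⟩ := ST_form t0
  obtain ⟨he, he'⟩ := abs_le.1 he
  obtain ⟨hd, hd'⟩ := abs_le.1 hd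
  obtain ⟨u1, u2⟩ := abs_le.1 (t0 0).1
  obtain ⟨v1, v2⟩ := abs_le.1 (t1 0).1
  obtain ⟨w1, w2⟩ := abs_le.1 (t2 0).1
  simp only [zero_add] at u1 u2 v1 v2 w1 w2
  obtain ⟨a1, a2⟩ := apx (U := f.a + 2 * f.z - 4 * f.p 0 - 24 * e - 10 * f.s 0 + 58 * d)
    (B := 20 * (f.a + f.b)) (by linarith) (by linarith)
  obtain ⟨a3, a4⟩ := apx (U := f.a / 4 - f.x + 5 / 2 * f.z + 6 * f.p 0 + 35 * e - 29 / 2 * f.s 0
    + 169 / 2 * d) (B := 20 * (f.a + f.b)) (by linarith) (by linarith)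
  unfold R
  rw [(ST_phi t2).1, (ST_phi t2).2, (ST_phi t1).1, (ST_phi t1).2, (ST_phi t0).1, (ST_phi t0).2,
    neg_neg, abs_neg]
  generalize Sv f = S at *
  generalize Tv f = T at *
  generalize rho * (f.a + 2 * f.z - 4 * f.p 0 - 24 * e - 10 * f.s 0 + 58 * d) = U at *
  generalize rho * (f.a / 4 - f.x + 5 / 2 * f.z + 6 * f.p 0 + 35 * e - 29 / 2 * f.s 0
    + 169 / 2 * d) = U' at *
  simp only [phi_a, phi_x, phi_z, phi_p0, phi_s0, phi_q0]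
  refine ⟨fun i => ⟨(t3 i).1.trans ?_, (t3 i).2.1.trans ?_, (t3 i).2.2.trans ?_⟩,
    ?_, ?_, ?_, ?_, ?_, ?_, ?_, ?_, ?_⟩
  · linarith
  · linarith
  · linarith
  all_goals
    rw [abs_le]
    constructor <;> linarith

lemma C_r0 : C (am r0) := by
  have t : Tail r0 0 0 0 := fun i => by simp [r0, St.p, St.s, St.q, cons]
  refine psi_C _ t ?_
  simp only [Box, r0, St.a, St.b, St.x, St.y, St.z, St.p, St.s, St.q, cons, Pi.zero_apply]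
  norm_num

def G (f : St) : Prop := f = r0 ∨ C f ∨ (∃ g, C g ∧ f = phi g) ∨ (∃ g, C g ∧ f = phi (phi g)) ∨ R f

lemma G_step {f : St} (h : G f) : G (am f) ∧ G (phi f) ∧ 0 ≤ f.a + f.b := by
  rcases h with rfl | h | ⟨g, h, rfl⟩ | ⟨g, h, rfl⟩ | h
  · refine ⟨Or.inr (Or.inl C_r0), Or.inr (Or.inl ?_), by norm_num [r0, St.a, St.b]⟩
    rw [← am_mir, mir_r0]; exact C_r0
  · exact ⟨Or.inr (Or.inl (C0 h)), Or.inr (Or.inr (Or.inl ⟨f, h, rfl⟩)), h.1.1⟩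
  · refine ⟨Or.inr (Or.inl (C1 h)), Or.inr (Or.inr (Or.inr (Or.inl ⟨g, h, rfl⟩))), ?_⟩
    obtain ⟨⟨b0, b1, -⟩, -⟩ := h
    simp only [phi_a, phi_b]; linarith
  · refine ⟨Or.inr (Or.inl (C2 h)), Or.inr (Or.inr (Or.inr (Or.inr (C_R h)))), ?_⟩
    obtain ⟨⟨b0, b1, b2, b3, b4, b5, b6, b7, b8, b9, c0, c1, c2, c3, c4, c5, c6, c7, c8⟩, -⟩ := h
    simp only [phi_a, phi_b]; linarith
  · exact ⟨Or.inr (Or.inl (R_am h).1), Or.inr (Or.inr (Or.inr (Or.inr (R_phi h)))), (R_am h).2⟩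

def Good (f : St) : Prop := G f ∨ G (mir f)

lemma good_r0 : Good r0 := Or.inl (Or.inl rfl)

lemma good_step {f : St} (h : Good f) : Good (am f) ∧ Good (ap f) ∧ 0 ≤ f.a + f.b := by
  rcases h with h | h
  · obtain ⟨h1, h2, h3⟩ := G_step h
    exact ⟨Or.inl h1, Or.inr (by rwa [mir_ap]), h3⟩
  · obtain ⟨h1, h2, h3⟩ := G_step h
    refine ⟨Or.inl ?_, Or.inr ?_, ?_⟩
    · rwa [← am_mir, mir_mir] at h2
    · rwa [mir_ap, ← am_mir]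
    · rw [add_comm]; exact h3

end

end Pool.Agent.H.MP_341645_pr
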